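import Pool.Agent.Q248.PI.Defs

/-!
# Semigroups all of whose product intersection sets are full
-/

namespace Pool.Agent.Q248.PI

open Filter Set

universe u

variable {S : Type u} [Semigroup S]

/-- The set of the factorisations `x = a b`. -/
def fac (x : S) : Set (S × S) := {p | p.1 * p.2 = x}

/-- For every `x` there are finite sets `P`, `Q` of square roots of `x` such that only finitely
many factorisations `x = a b` have `a ∉ P` and `b ∉ Q`. -/
def RootCover (S : Type u) [Semigroup S] : Prop :=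
  ∀ x : S, ∃ P Q : Set S, P.Finite ∧ Q.Finite ∧ (∀ c ∈ P, c * c = x) ∧ (∀ d ∈ Q, d * d = x) ∧
    {p : S × S | p.1 * p.2 = x ∧ p.1 ∉ P ∧ p.2 ∉ Q}.Finite

theorem RootCover.row_sq (h : RootCover S) {x c : S} (hr : {b | c * b = x}.Infinite) :
    c * c = x := by
  obtain ⟨P, Q, hP, hQ, h1, h2, h3⟩ := h x
  by_contra hne
  apply hr
  have : {b | c * b = x} ⊆ Q ∪ Prod.snd '' {p : S × S | p.1 * p.2 = x ∧ p.1 ∉ P ∧ p.2 ∉ Q} := by
    intro b hb
    by_cases hbQ : b ∈ Q
    · exact Or.inl hbQ
    · exact Or.inr ⟨(c, b), ⟨hb, fun hc => hne (h1 c hc), hbQ⟩, rfl⟩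
  exact (hQ.union (h3.image _)).subset this

theorem RootCover.col_sq (h : RootCover S) {x d : S} (hr : {a | a * d = x}.Infinite) :
    d * d = x := by
  obtain ⟨P, Q, hP, hQ, h1, h2, h3⟩ := h x
  by_contra hne
  apply hr
  have : {a | a * d = x} ⊆ P ∪ Prod.fst '' {p : S × S | p.1 * p.2 = x ∧ p.1 ∉ P ∧ p.2 ∉ Q} := by
    intro a ha
    by_cases haP : a ∈ P
    · exact Or.inl haP
    · exact Or.inr ⟨(a, d), ⟨ha, haP, fun hd => hne (h2 d hd)⟩, rfl⟩
  exact (hP.union (h3.image _)).subset this

theorem RootCover.rows_finite (h : RootCover S) (x : S) : {c | {b | c * b = x}.Infinite}.Finite := by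
  obtain ⟨P, Q, hP, hQ, h1, h2, h3⟩ := h x
  have : {c | {b | c * b = x}.Infinite} ⊆
      P ∪ Prod.fst '' {p : S × S | p.1 * p.2 = x ∧ p.1 ∉ P ∧ p.2 ∉ Q} := by
    intro c hc
    by_cases hcP : c ∈ P
    · exact Or.inl hcP
    · right
      obtain ⟨b, hb⟩ := (hc.sdiff hQ).nonempty
      exact ⟨(c, b), ⟨hb.1, hcP, hb.2⟩, rfl⟩
  exact (hP.union (h3.image _)).subset this

theorem RootCover.cols_finite (h : RootCover S) (x : S) : {d | {a | a * d = x}.Infinite}.Finite := by
  obtain ⟨P, Q, hP, hQ, h1, h2, h3⟩ := h x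
  have : {d | {a | a * d = x}.Infinite} ⊆
      Q ∪ Prod.snd '' {p : S × S | p.1 * p.2 = x ∧ p.1 ∉ P ∧ p.2 ∉ Q} := by
    intro d hd
    by_cases hdQ : d ∈ Q
    · exact Or.inl hdQ
    · right
      obtain ⟨a, ha⟩ := (hd.sdiff hP).nonempty
      exact ⟨(a, d), ⟨ha.1, ha.2, hdQ⟩, rfl⟩
  exact (hQ.union (h3.image _)).subset this

/-- an infinite set whose products lie in a finite set -/
theorem exists_infinite_fiber {α β : Type*} {B : Set α} (hB : B.Infinite) {f : α → β} {Z : Set β}
    (hZ : Z.Finite) (hf : ∀ b ∈ B, f b ∈ Z) : ∃ z ∈ Z, {b ∈ B | f b = z}.Infinite := by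
  by_contra hcon
  push Not at hcon
  apply hB
  have : B ⊆ ⋃ z ∈ Z, {b ∈ B | f b = z} := by
    intro b hb
    simp only [mem_iUnion]
    exact ⟨f b, hf b hb, hb, rfl⟩
  exact (hZ.biUnion (fun z hz => hcon z hz)).subset this

theorem RootCover.row_cube (h : RootCover S) {x c : S} (hr : {b | c * b = x}.Infinite) :
    c * c * c = x := by
  have hsq := h.row_sq hr
  set B := {b | c * b = x} with hB
  by_cases hinf : {z | ∃ b ∈ B, ∃ b' ∈ B, z = b * b'}.Infinite
  · have hy : {z | c * z = c * c * c}.Infinite := by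
      apply hinf.mono
      rintro z ⟨b, hb, b', hb', rfl⟩
      have hb1 : c * b = x := hb
      have hb2 : c * b' = x := hb'
      calc c * (b * b') = (c * b) * b' := (mul_assoc _ _ _).symm
        _ = x * b' := by rw [hb1]
        _ = c * c * b' := by rw [hsq]
        _ = c * (c * b') := mul_assoc _ _ _
        _ = c * x := by rw [hb2]
        _ = c * (c * c) := by rw [hsq]
        _ = c * c * c := (mul_assoc _ _ _).symm
    rw [← h.row_sq hy, hsq]
  · rw [Set.not_infinite] at hinf
    exfalso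
    apply hr
    have : B ⊆ ⋃ z ∈ {z | ∃ b ∈ B, ∃ b' ∈ B, z = b * b'}, {c | {b | c * b = z}.Infinite} := by
      intro b hb
      obtain ⟨z, hz, hz2⟩ := exists_infinite_fiber (f := fun b' => b * b') hr hinf
        (fun b' hb' => ⟨b, hb, b', hb', rfl⟩)
      simp only [mem_iUnion]
      exact ⟨z, hz, hz2.mono (fun b' hb' => hb'.2)⟩
    exact (hinf.biUnion (fun z _ => h.rows_finite z)).subset this

theorem RootCover.col_cube (h : RootCover S) {x d : S} (hr : {a | a * d = x}.Infinite) :
    d * d * d = x := by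
  have hsq := h.col_sq hr
  set B := {a | a * d = x} with hB
  by_cases hinf : {z | ∃ b ∈ B, ∃ b' ∈ B, z = b * b'}.Infinite
  · have hy : {z | z * d = d * d * d}.Infinite := by
      apply hinf.mono
      rintro z ⟨b, hb, b', hb', rfl⟩
      have hb1 : b * d = x := hb
      have hb2 : b' * d = x := hb'
      calc (b * b') * d = b * (b' * d) := mul_assoc _ _ _
        _ = b * x := by rw [hb2]
        _ = b * (d * d) := by rw [hsq]
        _ = b * d * d := (mul_assoc _ _ _).symm
        _ = x * d := by rw [hb1]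
        _ = d * d * d := by rw [hsq]
    rw [← h.col_sq hy, hsq]
  · rw [Set.not_infinite] at hinf
    exfalso
    apply hr
    have : B ⊆ ⋃ z ∈ {z | ∃ b ∈ B, ∃ b' ∈ B, z = b * b'}, {d | {a | a * d = z}.Infinite} := by
      intro b hb
      obtain ⟨z, hz, hz2⟩ := exists_infinite_fiber (f := fun b' => b' * b) hr hinf
        (fun b' hb' => ⟨b', hb', b, hb, rfl⟩)
      simp only [mem_iUnion]
      exact ⟨z, hz, hz2.mono (fun b' hb' => hb'.2)⟩
    exact (hinf.biUnion (fun z _ => h.cols_finite z)).subset this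

/-- eventually constant along the ultrafilter -/
def Cst (w : ℕ → S) : Prop := ∃ a, ∀ᶠ q in (hyperfilter ℕ : Filter ℕ), w q = a

theorem cst_of_finite {w : ℕ → S} {T : Set S} (hT : T.Finite)
    (h : ∀ᶠ q in (hyperfilter ℕ : Filter ℕ), w q ∈ T) : Cst w := by
  have h' : ∀ᶠ q in (hyperfilter ℕ : Filter ℕ), ∃ a ∈ T, w q = a := by
    filter_upwards [h] with q hq
    exact ⟨w q, hq, rfl⟩
  obtain ⟨a, _, ha⟩ := (Ultrafilter.eventually_exists_mem_iff (f := hyperfilter ℕ) hT).1 h'
  exact ⟨a, ha⟩

theorem RootCover.cst_or (h : RootCover S) {u v : ℕ → S} {x : S}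
    (huv : ∀ᶠ q in (hyperfilter ℕ : Filter ℕ), u q * v q = x) : Cst u ∨ Cst v := by
  obtain ⟨P, Q, hP, hQ, h1, h2, h3⟩ := h x
  have : ∀ᶠ q in (hyperfilter ℕ : Filter ℕ), (u q ∈ P ∪
      Prod.fst '' {p : S × S | p.1 * p.2 = x ∧ p.1 ∉ P ∧ p.2 ∉ Q}) ∨ v q ∈ Q := by
    filter_upwards [huv] with q hq
    by_cases hp : u q ∈ P
    · exact Or.inl (Or.inl hp)
    · by_cases hq' : v q ∈ Q
      · exact Or.inr hq'
      · exact Or.inl (Or.inr ⟨(u q, v q), ⟨hq, hp, hq'⟩, rfl⟩)
  rcases Ultrafilter.eventually_or.1 this with h4 | h4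
  · exact Or.inl (cst_of_finite (hP.union (h3.image _)) h4)
  · exact Or.inr (cst_of_finite hQ h4)

theorem RootCover.row_of (h : RootCover S) {v : ℕ → S} {x c : S}
    (huv : ∀ᶠ q in (hyperfilter ℕ : Filter ℕ), c * v q = x) (hv : ¬ Cst v) :
    c * c = x ∧ c * c * c = x := by
  have : {b | c * b = x}.Infinite := by
    intro hfin
    exact hv (cst_of_finite hfin huv)
  exact ⟨h.row_sq this, h.row_cube this⟩

theorem RootCover.col_of (h : RootCover S) {w : ℕ → S} {x d : S}
    (huv : ∀ᶠ q in (hyperfilter ℕ : Filter ℕ), w q * d = x) (hv : ¬ Cst w) :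
    d * d = x ∧ d * d * d = x := by
  have : {b | b * d = x}.Infinite := by
    intro hfin
    exact hv (cst_of_finite hfin huv)
  exact ⟨h.col_sq this, h.col_cube this⟩

theorem mem_of_eventually {A : ℕ → Set S} (hA : Antitone A) {c : S}
    (h : ∀ᶠ q in (hyperfilter ℕ : Filter ℕ), c ∈ A q) : c ∈ ⋂ q, A q := by
  rw [mem_iInter]
  intro q
  have h2 : ∀ᶠ q' in (hyperfilter ℕ : Filter ℕ), q ≤ q' := by
    have : (atTop : Filter ℕ) = cofinite := Nat.cofinite_eq_atTop.symm
    have h3 : (hyperfilter ℕ : Filter ℕ) ≤ atTop := by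
      rw [this]; exact hyperfilter_le_cofinite
    exact h3 (eventually_ge_atTop q)
  obtain ⟨q', h3, h4⟩ := (h.and h2).exists
  exact hA h4 h3

theorem pw_mono {A B : Set S} (h : A ⊆ B) (n : ℕ) : pw A n ⊆ pw B n := by
  induction n with
  | zero => exact subset_rfl
  | succ n ih =>
    cases n with
    | zero => exact h
    | succ n =>
      rintro x ⟨y, hy, a, ha, rfl⟩
      exact ⟨y, ih hy, a, h ha, rfl⟩

theorem mul_mem_pw {A : Set S} {a y : S} (ha : a ∈ A) (n : ℕ) (hy : y ∈ pw A (n + 1)) :
    a * y ∈ pw A (n + 2) := by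
  induction n generalizing y with
  | zero => exact ⟨a, ha, y, hy, rfl⟩
  | succ n ih =>
    obtain ⟨z, hz, b, hb, rfl⟩ := hy
    exact ⟨a * z, ih hz, b, hb, (mul_assoc _ _ _).symm⟩

theorem exists_mul_of_mem_pw {A : Set S} {x : S} (n : ℕ) (hx : x ∈ pw A (n + 2)) :
    ∃ a ∈ A, ∃ y ∈ pw A (n + 1), x = a * y := by
  induction n generalizing x with
  | zero =>
    obtain ⟨y, hy, a, ha, rfl⟩ := hx
    exact ⟨y, hy, a, ha, rfl⟩
  | succ n ih =>
    obtain ⟨y, hy, a, ha, rfl⟩ := hx
    obtain ⟨b, hb, z, hz, rfl⟩ := ih hy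
    exact ⟨b, hb, z * a, ⟨z, hz, a, ha, rfl⟩, mul_assoc _ _ _⟩

theorem sq_mem_pw {A : Set S} {e : S} (he : e ∈ A) (h3 : e * e * e = e * e) (n : ℕ) :
    e * e ∈ pw A (n + 2) := by
  induction n with
  | zero => exact ⟨e, he, e, he, rfl⟩
  | succ n ih => exact ⟨e * e, ih, e, he, h3.symm⟩

theorem sq_mul_mem_pw {A : Set S} {e w : S} (he : e ∈ A) (h3 : e * e * e = e * e) {m : ℕ}
    (hw : w ∈ pw A (m + 1)) (n : ℕ) : e * e * w ∈ pw A (m + n + 3) := by
  induction n with
  | zero =>
    rw [mul_assoc]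
    exact mul_mem_pw he (m + 1) (mul_mem_pw he m hw)
  | succ n ih =>
    have : e * e * w = e * (e * e * w) := by
      rw [← mul_assoc, ← mul_assoc, h3]
    rw [this]
    exact mul_mem_pw he (m + n + 2) ih

section

variable {A : ℕ → Set S}

/-- constant along the ultrafilter and in the powers -/
def CC (A : ℕ → Set S) (n : ℕ) : Prop :=
  ∀ x, (∀ᶠ q in (hyperfilter ℕ : Filter ℕ), x ∈ pw (A q) (n + 1)) → x ∈ pw (⋂ q, A q) (n + 1)

/-- the companion statement -/
def DD (A : ℕ → Set S) (m : ℕ) : Prop :=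
  ∀ (u v : ℕ → S) (x : S), ¬ Cst u → (∀ᶠ q in (hyperfilter ℕ : Filter ℕ), v q ∈ pw (A q) (m + 1)) →
    (∀ᶠ q in (hyperfilter ℕ : Filter ℕ), u q * v q = x) → ∀ k, x ∈ pw (⋂ q, A q) (m + 2 + k)

theorem RootCover.CC_DD (h : RootCover S) (hA : Antitone A) (n : ℕ) : CC A n ∧ DD A n := by
  induction n with
  | zero =>
    refine ⟨fun x hx => mem_of_eventually hA hx, ?_⟩
    intro u v x hu hv huv k
    rcases h.cst_or huv with hc | ⟨e, he⟩
    · exact absurd hc hu
    · have he1 : e ∈ ⋂ q, A q := by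
        apply mem_of_eventually hA
        filter_upwards [hv, he] with q h1 h2
        rw [← h2]; exact h1
      have he2 : ∀ᶠ q in (hyperfilter ℕ : Filter ℕ), u q * e = x := by
        filter_upwards [huv, he] with q h1 h2
        rw [← h2]; exact h1
      obtain ⟨h1, h2⟩ := h.col_of he2 hu
      have := sq_mem_pw he1 (h2.trans h1.symm) k
      rw [h1] at this
      rw [show 0 + 2 + k = k + 2 by omega]
      exact this
  | succ n ih =>
    obtain ⟨ihC, ihD⟩ := ih
    constructor
    · intro x hx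
      have hx2 : ∀ q, ∃ a y, x ∈ pw (A q) (n + 2) → a ∈ A q ∧ y ∈ pw (A q) (n + 1) ∧ x = a * y := by
        intro q
        by_cases hq : x ∈ pw (A q) (n + 2)
        · obtain ⟨a, ha, y, hy, hxy⟩ := exists_mul_of_mem_pw n hq
          exact ⟨a, y, fun _ => ⟨ha, hy, hxy⟩⟩
        · exact ⟨x, x, fun h => absurd h hq⟩
      choose a y hay using hx2
      have e1 : ∀ᶠ q in (hyperfilter ℕ : Filter ℕ), a q ∈ A q := by
        filter_upwards [hx] with q hq using (hay q hq).1
      have e2 : ∀ᶠ q in (hyperfilter ℕ : Filter ℕ), y q ∈ pw (A q) (n + 1) := by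
        filter_upwards [hx] with q hq using (hay q hq).2.1
      have e3 : ∀ᶠ q in (hyperfilter ℕ : Filter ℕ), a q * y q = x := by
        filter_upwards [hx] with q hq using (hay q hq).2.2.symm
      by_cases hca : Cst a
      · obtain ⟨c, hc⟩ := hca
        have hcA : c ∈ ⋂ q, A q := by
          apply mem_of_eventually hA
          filter_upwards [e1, hc] with q h1 h2
          rw [← h2]; exact h1
        have e4 : ∀ᶠ q in (hyperfilter ℕ : Filter ℕ), c * y q = x := by
          filter_upwards [e3, hc] with q h1 h2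
          rw [← h2]; exact h1
        by_cases hcy : Cst y
        · obtain ⟨d, hd⟩ := hcy
          have hdA : d ∈ pw (⋂ q, A q) (n + 1) := by
            apply ihC
            filter_upwards [e2, hd] with q h1 h2
            rw [← h2]; exact h1
          obtain ⟨q, h5, h6⟩ := (e4.and hd).exists
          rw [h6] at h5
          rw [← h5]
          exact mul_mem_pw hcA n hdA
        · obtain ⟨h1, h2⟩ := h.row_of e4 hcy
          have := sq_mem_pw hcA (h2.trans h1.symm) n
          rw [h1] at this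
          exact this
      · have := ihD a y x hca e2 e3 0
        exact this
    · intro u v x hu hv huv k
      have hx2 : ∀ q, ∃ s w, v q ∈ pw (A q) (n + 2) → s ∈ A q ∧ w ∈ pw (A q) (n + 1) ∧
          v q = s * w := by
        intro q
        by_cases hq : v q ∈ pw (A q) (n + 2)
        · obtain ⟨a, ha, y, hy, hxy⟩ := exists_mul_of_mem_pw n hq
          exact ⟨a, y, fun _ => ⟨ha, hy, hxy⟩⟩
        · exact ⟨x, x, fun h => absurd h hq⟩
      choose s w hsw using hx2
      have e1 : ∀ᶠ q in (hyperfilter ℕ : Filter ℕ), s q ∈ A q := by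
        filter_upwards [hv] with q hq using (hsw q hq).1
      have e2 : ∀ᶠ q in (hyperfilter ℕ : Filter ℕ), w q ∈ pw (A q) (n + 1) := by
        filter_upwards [hv] with q hq using (hsw q hq).2.1
      have e3 : ∀ᶠ q in (hyperfilter ℕ : Filter ℕ), (u q * s q) * w q = x := by
        filter_upwards [hv, huv] with q hq hq2
        rw [mul_assoc, ← (hsw q hq).2.2]; exact hq2
      by_cases hcu : Cst (fun q => u q * s q)
      · obtain ⟨y, hy⟩ := hcu
        rcases h.cst_or hy with hc | ⟨e, he⟩
        · exact absurd hc hu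
        · have heA : e ∈ ⋂ q, A q := by
            apply mem_of_eventually hA
            filter_upwards [e1, he] with q h1 h2
            rw [← h2]; exact h1
          have he2 : ∀ᶠ q in (hyperfilter ℕ : Filter ℕ), u q * e = y := by
            filter_upwards [hy, he] with q h1 h2
            rw [← h2]; exact h1
          obtain ⟨h1, h2⟩ := h.col_of he2 hu
          have h12 : e * e * e = e * e := h2.trans h1.symm
          have e4 : ∀ᶠ q in (hyperfilter ℕ : Filter ℕ), y * w q = x := by
            filter_upwards [e3, hy] with q h1 h2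
            rw [← h2]; exact h1
          by_cases hcw : Cst w
          · obtain ⟨d, hd⟩ := hcw
            have hdA : d ∈ pw (⋂ q, A q) (n + 1) := by
              apply ihC
              filter_upwards [e2, hd] with q h1 h2
              rw [← h2]; exact h1
            obtain ⟨q, h5, h6⟩ := (e4.and hd).exists
            rw [h6] at h5
            rw [← h5, ← h1, show n + 1 + 2 + k = n + k + 3 by omega]
            exact sq_mul_mem_pw heA h12 hdA k
          · obtain ⟨h3, h4⟩ := h.row_of e4 hcw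
            have h5 : x = e * e := by
              rw [← h3, ← h1]
              calc e * e * (e * e) = e * e * e * e := (mul_assoc _ _ _).symm
                _ = e * e * e := congrArg (· * e) h12
                _ = e * e := h12
            rw [h5, show n + 1 + 2 + k = (n + 1 + k) + 2 by omega]
            exact sq_mem_pw heA h12 _
      · have := ihD _ w x hcu e2 e3 (k + 1)
        rw [show n + 1 + 2 + k = n + 2 + (k + 1) by omega]
        exact this

end

theorem RootCover.interSet_eq (h : RootCover S) {A : ℕ → Set S} (hA : Antitone A) :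
    interSet A = {k | 1 ≤ k} := by
  ext k
  constructor
  · exact fun hk => hk.1
  · intro hk
    refine ⟨hk, ?_⟩
    obtain ⟨n, rfl⟩ : ∃ n, k = n + 1 := ⟨k - 1, by
      have : 1 ≤ k := hk
      omega⟩
    apply subset_antisymm
    · exact subset_iInter (fun q => pw_mono (iInter_subset _ _) _)
    · intro x hx
      rw [mem_iInter] at hx
      exact (h.CC_DD hA n).1 x (Eventually.of_forall hx)

theorem ASD.antitone {A : ℕ → Set S} (hA : ASD A) : Antitone A := antitone_nat_of_succ_le hA.1

/-- the converse: if `2` lies in all intersection sets then the condition holds -/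
theorem rootCover_of_two (h : ∀ A : ℕ → Set S, ASD A → 2 ∈ interSet A) : RootCover S := by
  classical
  intro x
  -- no infinite row with a non-root
  have hrow : ∀ c, {b | c * b = x}.Infinite → c * c = x := by
    intro c hc
    by_contra hne
    have hB : ({b | c * b = x} \ {c}).Infinite := hc.sdiff (finite_singleton c)
    set f := hB.natEmbedding with hf
    set A : ℕ → Set S := fun q => {y | y = c ∨ ∃ i, q ≤ i ∧ y = (f i).1} with hAdef
    have hfc : ∀ i, (f i).1 ≠ c := fun i hi => (f i).2.2 hi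
    have hfinj : ∀ i j, (f i).1 = (f j).1 → i = j := fun i j hij =>
      f.injective (Subtype.ext hij)
    have hasd : ASD A := by
      constructor
      · rintro q y (hy | ⟨i, hi, hy⟩)
        · exact Or.inl hy
        · exact Or.inr ⟨i, by omega, hy⟩
      · intro q
        refine ⟨q, le_rfl, fun he => ?_⟩
        have : (f q).1 ∈ A q := Or.inr ⟨q, le_rfl, rfl⟩
        rw [← he] at this
        rcases this with h1 | ⟨i, hi, h1⟩
        · exact hfc q h1
        · have := hfinj _ _ h1
          omega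
    have hI : ⋂ q, A q = {c} := by
      ext y
      rw [mem_iInter, mem_singleton_iff]
      constructor
      · intro hy
        rcases hy 0 with h1 | ⟨i, hi, h1⟩
        · exact h1
        · rcases hy (i + 1) with h2 | ⟨j, hj, h2⟩
          · exact h2
          · rw [h1] at h2
            have := hfinj _ _ h2
            omega
      · rintro rfl q
        exact Or.inl rfl
    obtain ⟨_, h2⟩ := h A hasd
    have hx : x ∈ ⋂ q, pw (A q) 2 := by
      rw [mem_iInter]
      intro q
      exact ⟨c, Or.inl rfl, (f q).1, Or.inr ⟨q, le_rfl, rfl⟩, ((f q).2.1 : c * (f q).1 = x).symm⟩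
    rw [← h2, hI] at hx
    obtain ⟨y, hy, a, ha, he⟩ := hx
    have hy' : y = c := hy
    have ha' : a = c := ha
    rw [hy', ha'] at he
    exact hne he.symm
  have hcol : ∀ c, {b | b * c = x}.Infinite → c * c = x := by
    intro c hc
    by_contra hne
    have hB : ({b | b * c = x} \ {c}).Infinite := hc.sdiff (finite_singleton c)
    set f := hB.natEmbedding with hf
    set A : ℕ → Set S := fun q => {y | y = c ∨ ∃ i, q ≤ i ∧ y = (f i).1} with hAdef
    have hfc : ∀ i, (f i).1 ≠ c := fun i hi => (f i).2.2 hi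
    have hfinj : ∀ i j, (f i).1 = (f j).1 → i = j := fun i j hij =>
      f.injective (Subtype.ext hij)
    have hasd : ASD A := by
      constructor
      · rintro q y (hy | ⟨i, hi, hy⟩)
        · exact Or.inl hy
        · exact Or.inr ⟨i, by omega, hy⟩
      · intro q
        refine ⟨q, le_rfl, fun he => ?_⟩
        have : (f q).1 ∈ A q := Or.inr ⟨q, le_rfl, rfl⟩
        rw [← he] at this
        rcases this with h1 | ⟨i, hi, h1⟩
        · exact hfc q h1
        · have := hfinj _ _ h1
          omega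
    have hI : ⋂ q, A q = {c} := by
      ext y
      rw [mem_iInter, mem_singleton_iff]
      constructor
      · intro hy
        rcases hy 0 with h1 | ⟨i, hi, h1⟩
        · exact h1
        · rcases hy (i + 1) with h2 | ⟨j, hj, h2⟩
          · exact h2
          · rw [h1] at h2
            have := hfinj _ _ h2
            omega
      · rintro rfl q
        exact Or.inl rfl
    obtain ⟨_, h2⟩ := h A hasd
    have hx : x ∈ ⋂ q, pw (A q) 2 := by
      rw [mem_iInter]
      intro q
      exact ⟨(f q).1, Or.inr ⟨q, le_rfl, rfl⟩, c, Or.inl rfl, ((f q).2.1 : (f q).1 * c = x).symm⟩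
    rw [← h2, hI] at hx
    obtain ⟨y, hy, a, ha, he⟩ := hx
    have hy' : y = c := hy
    have ha' : a = c := ha
    rw [hy', ha'] at he
    exact hne he.symm
  by_contra hcon
  push Not at hcon
  -- pairs avoiding any finite set
  have hav : ∀ T : Finset S, ∃ p : S × S, p.1 * p.2 = x ∧ p.1 ∉ T ∧ p.2 ∉ T := by
    intro T
    by_contra hT
    push Not at hT
    have := hcon {c | c ∈ T ∧ {b | c * b = x}.Infinite} {d | d ∈ T ∧ {a | a * d = x}.Infinite}
      (T.finite_toSet.subset (fun c hc => hc.1)) (T.finite_toSet.subset (fun c hc => hc.1))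
      (fun c hc => hrow c hc.2) (fun c hc => hcol c hc.2)
    apply this
    have hfin : ((⋃ c ∈ {c | c ∈ T ∧ ¬ {b | c * b = x}.Infinite}, (fun b => (c, b)) '' {b | c * b = x}) ∪
        (⋃ d ∈ {d | d ∈ T ∧ ¬ {a | a * d = x}.Infinite}, (fun a => (a, d)) '' {a | a * d = x})).Finite := by
      apply Finite.union
      · apply Finite.biUnion (T.finite_toSet.subset (fun c hc => hc.1))
        intro c hc
        exact (Set.not_infinite.1 hc.2).image _
      · apply Finite.biUnion (T.finite_toSet.subset (fun c hc => hc.1))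
        intro c hc
        exact (Set.not_infinite.1 hc.2).image _
    apply hfin.subset
    rintro ⟨a, b⟩ ⟨h1, h2, h3⟩
    by_cases haT : a ∈ T
    · left
      simp only [mem_iUnion]
      exact ⟨a, ⟨haT, fun hinf => h2 ⟨haT, hinf⟩⟩, b, h1, rfl⟩
    · right
      have hbT := hT (a, b) h1 haT
      simp only [mem_iUnion]
      exact ⟨b, ⟨hbT, fun hinf => h3 ⟨hbT, hinf⟩⟩, a, h1, rfl⟩
  obtain ⟨f, hf1, hf2⟩ := exists_seq_of_forall_finset_exists
    (P := fun p : S × S => p.1 * p.2 = x)
    (r := fun p p' => p'.1 ≠ p.1 ∧ p'.1 ≠ p.2 ∧ p'.2 ≠ p.1 ∧ p'.2 ≠ p.2) (by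
      intro s _
      obtain ⟨p, hp1, hp2, hp3⟩ := hav (s.image Prod.fst ∪ s.image Prod.snd)
      refine ⟨p, hp1, fun y hy => ?_⟩
      simp only [Finset.mem_union, Finset.mem_image, not_or, not_exists, not_and] at hp2 hp3
      exact ⟨fun e => hp2.1 y hy e.symm, fun e => hp2.2 y hy e.symm,
        fun e => hp3.1 y hy e.symm, fun e => hp3.2 y hy e.symm⟩)
  set A : ℕ → Set S := fun q => {y | ∃ i, q ≤ i ∧ (y = (f i).1 ∨ y = (f i).2)} with hAdef
  have hdisj : ∀ i j y, i < j → (y = (f i).1 ∨ y = (f i).2) → (y = (f j).1 ∨ y = (f j).2) → False := by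
    intro i j y hij h1 h2
    obtain ⟨g1, g2, g3, g4⟩ := hf2 i j hij
    rcases h1 with rfl | rfl <;> rcases h2 with h2 | h2
    · exact g1 h2.symm
    · exact g3 h2.symm
    · exact g2 h2.symm
    · exact g4 h2.symm
  have hasd : ASD A := by
    constructor
    · rintro q y ⟨i, hi, hy⟩
      exact ⟨i, by omega, hy⟩
    · intro q
      refine ⟨q, le_rfl, fun he => ?_⟩
      have : (f q).1 ∈ A q := ⟨q, le_rfl, Or.inl rfl⟩
      rw [← he] at this
      obtain ⟨i, hi, h1⟩ := this
      exact hdisj q i _ (by omega) (Or.inl rfl) h1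
  have hI : ⋂ q, A q = ∅ := by
    rw [eq_empty_iff_forall_notMem]
    intro y hy
    rw [mem_iInter] at hy
    obtain ⟨i, _, h1⟩ := hy 0
    obtain ⟨j, hj, h2⟩ := hy (i + 1)
    exact hdisj i j y (by omega) h1 h2
  obtain ⟨_, h2⟩ := h A hasd
  have hx : x ∈ ⋂ q, pw (A q) 2 := by
    rw [mem_iInter]
    intro q
    exact ⟨(f q).1, ⟨q, le_rfl, Or.inl rfl⟩, (f q).2, ⟨q, le_rfl, Or.inr rfl⟩, (hf1 q).symm⟩
  rw [← h2, hI] at hx
  obtain ⟨y, hy, _⟩ := hx
  exact hy

/-- if there are infinitely many factorisations, the element is idempotent -/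
theorem RootCover.idem (h : RootCover S) {x : S} (hx : {p : S × S | p.1 * p.2 = x}.Infinite) :
    x * x = x := by
  have key : (∃ c, {b | c * b = x}.Infinite) ∨ ∃ d, {a | a * d = x}.Infinite := by
    by_contra hcon
    push Not at hcon
    obtain ⟨h1, h2⟩ := hcon
    apply hx
    obtain ⟨P, Q, hP, hQ, _, _, h3⟩ := h x
    have hfin : ((⋃ c ∈ P, (fun b => (c, b)) '' {b | c * b = x}) ∪
        (⋃ d ∈ Q, (fun a => (a, d)) '' {a | a * d = x}) ∪
        {p : S × S | p.1 * p.2 = x ∧ p.1 ∉ P ∧ p.2 ∉ Q}).Finite := by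
      refine Finite.union (Finite.union ?_ ?_) h3
      · exact hP.biUnion (fun c _ => (h1 c).image _)
      · exact hQ.biUnion (fun c _ => (h2 c).image _)
    apply hfin.subset
    rintro ⟨a, b⟩ hab
    by_cases haP : a ∈ P
    · left; left
      simp only [mem_iUnion]
      exact ⟨a, haP, b, hab, rfl⟩
    · by_cases hbQ : b ∈ Q
      · left; right
        simp only [mem_iUnion]
        exact ⟨b, hbQ, a, hab, rfl⟩
      · right
        exact ⟨hab, haP, hbQ⟩
  have fin : ∀ c : S, c * c = x → c * c * c = x → x * x = x := by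
    intro c h1 h2
    calc x * x = c * c * (c * c) := by rw [h1]
      _ = c * c * c * c := (mul_assoc _ _ _).symm
      _ = x * c := by rw [h2]
      _ = c * c * c := by rw [h1]
      _ = x := h2
  rcases key with ⟨c, hc⟩ | ⟨d, hd⟩
  · exact fin c (h.row_sq hc) (h.row_cube hc)
  · exact fin d (h.col_sq hd) (h.col_cube hd)

end Pool.Agent.Q248.PI
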