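import Mathlib

/-!
# Product intersection sets in semigroups: definitions
-/

namespace Pool.Agent.Q248.PI

universe u v

/-- `pw A h` is the product set `A^h = {a₁ a₂ ⋯ a_h : a_i ∈ A}`, for `h ≥ 1`
(for `h = 0` it is the empty set, which plays no role). -/
def pw {S : Type u} [Semigroup S] (A : Set S) : ℕ → Set S
  | 0 => ∅
  | 1 => A
  | (n + 2) => {x | ∃ y ∈ pw A (n + 1), ∃ a ∈ A, x = y * a}

/-- The product intersection set `H(A_q) = {h ≥ 1 : (⋂ A_q)^h = ⋂ (A_q)^h}` of a family of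
subsets. -/
def interSet {S : Type u} [Semigroup S] {Q : Type v} (A : Q → Set S) : Set ℕ :=
  {h | 1 ≤ h ∧ pw (⋂ q, A q) h = ⋂ q, pw (A q) h}

/-- Asymptotically strictly decreasing: `A_q ⊇ A_{q+1}` for all `q`, and `A_q ≠ A_{q+1}` for
infinitely many `q`. -/
def ASD {S : Type u} (A : ℕ → Set S) : Prop :=
  (∀ q, A (q + 1) ⊆ A q) ∧ ∀ q₀, ∃ q, q₀ ≤ q ∧ A (q + 1) ≠ A q

/-- `H*_ℕ(S)`: the product intersection sets of asymptotically strictly decreasing sequences of
subsets of `S`. -/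
def HStar (S : Type u) [Semigroup S] : Set (Set ℕ) :=
  {X | ∃ A : ℕ → Set S, ASD A ∧ interSet A = X}

/-- `H_Q(S)`: the product intersection sets of the families `(A_q)_{q ∈ Q}` of subsets of `S` with
infinitely many different members. -/
def HQ (Q : Type v) (S : Type u) [Semigroup S] : Set (Set ℕ) :=
  {X | ∃ A : Q → Set S, (Set.range A).Infinite ∧ interSet A = X}

theorem pw_one {S : Type u} [Semigroup S] (A : Set S) : pw A 1 = A := rfl

theorem pw_succ {S : Type u} [Semigroup S] (A : Set S) (n : ℕ) :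
    pw A (n + 2) = {x | ∃ y ∈ pw A (n + 1), ∃ a ∈ A, x = y * a} := rfl

theorem one_mem_interSet {S : Type u} [Semigroup S] {Q : Type v} (A : Q → Set S) :
    1 ∈ interSet A := ⟨le_rfl, by simp only [pw_one]⟩

theorem pos_of_mem_interSet {S : Type u} [Semigroup S] {Q : Type v} {A : Q → Set S} {h : ℕ}
    (hh : h ∈ interSet A) : 1 ≤ h := hh.1

end Pool.Agent.Q248.PI
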