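import Pool.Agent.Q248.PI.Defs

/-!
# A countable commutative semigroup realising all product intersection sets
-/

namespace Pool.Agent.Q248.PI

universe u v

/-- Elements of the universal example: a zero, elements `top h`, and elements `g h q I`. -/
inductive El : Type u
  | zero : El
  | top (h : ℕ) : El
  | g (h q : ℕ) (I : Finset ℕ) : El

namespace El

open Finset

/-- the element of index `(h, q)` with support `I`, all elements of full support identified -/
def mk (h q : ℕ) (I : Finset ℕ) : El.{u} :=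
  if I = range h then top h else if I ⊆ range h then g h q I else zero

/-- multiplication -/
def mul : El.{u} → El.{u} → El.{u}
  | g h q I, g h' q' J =>
      if h = h' ∧ q = q' ∧ I.Nonempty ∧ J.Nonempty ∧ Disjoint I J then mk h q (I ∪ J) else zero
  | _, _ => zero

theorem zero_mul' (x : El.{u}) : mul zero x = zero := by cases x <;> rfl
theorem mul_zero' (x : El.{u}) : mul x zero = zero := by cases x <;> rfl
theorem top_mul' (h : ℕ) (x : El.{u}) : mul (top h) x = zero := by cases x <;> rfl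
theorem mul_top' (h : ℕ) (x : El.{u}) : mul x (top h) = zero := by cases x <;> rfl
theorem g_mul_g (h q : ℕ) (I : Finset ℕ) (h' q' : ℕ) (J : Finset ℕ) :
    mul (g h q I : El.{u}) (g h' q' J) =
      if h = h' ∧ q = q' ∧ I.Nonempty ∧ J.Nonempty ∧ Disjoint I J then mk h q (I ∪ J)
      else zero := rfl

theorem mul_comm' (x y : El.{u}) : mul x y = mul y x := by
  cases x with
  | zero => rw [zero_mul', mul_zero']
  | top h => rw [top_mul', mul_top']
  | g h q I =>
    cases y with
    | zero => rw [zero_mul', mul_zero']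
    | top h => rw [top_mul', mul_top']
    | g h' q' J =>
      rw [g_mul_g, g_mul_g]
      by_cases hc : h = h' ∧ q = q' ∧ I.Nonempty ∧ J.Nonempty ∧ Disjoint I J
      · obtain ⟨rfl, rfl, h1, h2, h3⟩ := hc
        rw [if_pos ⟨rfl, rfl, h1, h2, h3⟩, if_pos ⟨rfl, rfl, h2, h1, h3.symm⟩, union_comm]
      · rw [if_neg hc, if_neg]
        rintro ⟨rfl, rfl, h1, h2, h3⟩
        exact hc ⟨rfl, rfl, h2, h1, h3.symm⟩

theorem triple (h q : ℕ) (I : Finset ℕ) (h' q' : ℕ) (J : Finset ℕ) (h'' q'' : ℕ) (K : Finset ℕ) :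
    mul (mul (g h q I) (g h' q' J)) (g h'' q'' K) =
      (if (h = h' ∧ h = h'') ∧ (q = q' ∧ q = q'') ∧ (I.Nonempty ∧ J.Nonempty ∧ K.Nonempty) ∧
        (Disjoint I J ∧ Disjoint I K ∧ Disjoint J K) then mk h q (I ∪ J ∪ K) else zero : El.{u}) := by
  rw [g_mul_g]
  by_cases hc : h = h' ∧ q = q' ∧ I.Nonempty ∧ J.Nonempty ∧ Disjoint I J
  · obtain ⟨rfl, rfl, h1, h2, h3⟩ := hc
    rw [if_pos ⟨rfl, rfl, h1, h2, h3⟩]
    by_cases hd : (h = h ∧ h = h'') ∧ (q = q ∧ q = q'') ∧ (I.Nonempty ∧ J.Nonempty ∧ K.Nonempty) ∧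
        (Disjoint I J ∧ Disjoint I K ∧ Disjoint J K)
    · rw [if_pos hd]
      obtain ⟨⟨_, rfl⟩, ⟨_, rfl⟩, ⟨_, _, h4⟩, ⟨_, h5, h6⟩⟩ := hd
      have h7 : Disjoint (I ∪ J) K := Finset.disjoint_union_left.mpr ⟨h5, h6⟩
      have h8 : (I ∪ J).Nonempty := h1.mono subset_union_left
      unfold mk
      by_cases e1 : I ∪ J = range h
      · rw [if_pos e1, top_mul', if_neg, if_neg]
        · intro hs
          rw [e1] at hs h7
          obtain ⟨k, hk⟩ := h4
          have := hs (mem_union_right _ hk)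
          exact (Finset.disjoint_left.mp h7 this) hk
        · intro hs
          rw [e1] at hs h7
          obtain ⟨k, hk⟩ := h4
          have : k ∈ range h := by rw [← hs]; exact mem_union_right _ hk
          exact (Finset.disjoint_left.mp h7 this) hk
      · rw [if_neg e1]
        by_cases e2 : I ∪ J ⊆ range h
        · rw [if_pos e2, g_mul_g, if_pos ⟨rfl, rfl, h8, h4, h7⟩]
          rfl
        · rw [if_neg e2, zero_mul', if_neg, if_neg]
          · intro hs
            exact e2 (subset_union_left.trans hs)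
          · intro hs
            exact e2 (subset_union_left.trans hs.subset)
    · rw [if_neg hd]
      unfold mk
      split_ifs with e1 e2
      · rw [top_mul']
      · rw [g_mul_g, if_neg]
        rintro ⟨rfl, rfl, h4, h5, h6⟩
        apply hd
        rw [Finset.disjoint_union_left] at h6
        exact ⟨⟨rfl, rfl⟩, ⟨rfl, rfl⟩, ⟨h1, h2, h5⟩, ⟨h3, h6.1, h6.2⟩⟩
      · rw [zero_mul']
  · rw [if_neg hc, zero_mul', if_neg]
    rintro ⟨⟨rfl, _⟩, ⟨rfl, _⟩, ⟨h1, h2, _⟩, ⟨h3, _, _⟩⟩
    exact hc ⟨rfl, rfl, h1, h2, h3⟩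

theorem mul_assoc' (x y z : El.{u}) : mul (mul x y) z = mul x (mul y z) := by
  cases x with
  | zero => rw [zero_mul', zero_mul', zero_mul']
  | top h => rw [top_mul', zero_mul', top_mul']
  | g h q I =>
    cases y with
    | zero => rw [zero_mul', mul_zero', zero_mul']
    | top h => rw [top_mul', mul_top', zero_mul', mul_zero']
    | g h' q' J =>
      cases z with
      | zero => rw [mul_zero', mul_zero', mul_zero']
      | top h => rw [mul_top', mul_top', mul_zero']
      | g h'' q'' K =>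
        rw [mul_comm' (g h q I) (mul (g h' q' J) (g h'' q'' K)), triple, triple]
        by_cases hd : (h = h' ∧ h = h'') ∧ (q = q' ∧ q = q'') ∧
            (I.Nonempty ∧ J.Nonempty ∧ K.Nonempty) ∧ (Disjoint I J ∧ Disjoint I K ∧ Disjoint J K)
        · rw [if_pos hd]
          obtain ⟨⟨rfl, rfl⟩, ⟨rfl, rfl⟩, ⟨h1, h2, h3⟩, ⟨h4, h5, h6⟩⟩ := hd
          rw [if_pos ⟨⟨rfl, rfl⟩, ⟨rfl, rfl⟩, ⟨h2, h3, h1⟩, ⟨h6, h4.symm, h5.symm⟩⟩]
          congr 1
          ext t
          simp only [mem_union]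
          tauto
        · rw [if_neg hd, if_neg]
          rintro ⟨⟨rfl, rfl⟩, ⟨rfl, rfl⟩, ⟨h1, h2, h3⟩, ⟨h4, h5, h6⟩⟩
          exact hd ⟨⟨rfl, rfl⟩, ⟨rfl, rfl⟩, ⟨h3, h1, h2⟩, ⟨h5.symm, h6.symm, h4⟩⟩

instance : CommSemigroup El.{u} where
  mul := mul
  mul_assoc := mul_assoc'
  mul_comm := mul_comm'

theorem mul_def (x y : El.{u}) : x * y = mul x y := rfl

/-- `El` is countable. -/
instance : Countable El.{u} := by
  have : Function.Injective (fun x : El.{u} => match x with
    | zero => (Sum.inl none : Option ℕ ⊕ (ℕ × ℕ × Finset ℕ))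
    | top h => Sum.inl (some h)
    | g h q I => Sum.inr (h, q, I)) := by
    intro x y hxy
    cases x <;> cases y <;> simp_all
  exact this.countable

/-- The sets `A_q` attached to a set `Y` of exponents. -/
def fam (Y : Set ℕ) (q : ℕ) : Set El.{u} :=
  {x | x = zero ∨ (∃ r, q ≤ r ∧ x = g 1 r ∅) ∨ ∃ h ∈ Y, ∃ r, q ≤ r ∧ ∃ i < h, x = g h r {i}}

theorem zero_mem_pw {A : Set El.{u}} (hA : zero ∈ A) (n : ℕ) : zero ∈ pw A (n + 1) := by
  induction n with
  | zero => exact hA
  | succ n ih => exact ⟨zero, ih, zero, hA, rfl⟩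

theorem pw_zero (n : ℕ) : pw ({zero} : Set El.{u}) (n + 1) = {zero} := by
  induction n with
  | zero => rfl
  | succ n ih =>
    rw [pw_succ]
    ext x
    rw [Set.mem_singleton_iff]
    constructor
    · rintro ⟨y, hy, a, ha, rfl⟩
      rw [Set.mem_singleton_iff] at ha
      rw [ha, mul_def, mul_zero']
    · rintro rfl
      exact ⟨zero, by rw [ih]; rfl, zero, rfl, rfl⟩

/-- shape of the products -/
theorem shape {Y : Set ℕ} {q : ℕ} (n : ℕ) :
    ∀ x ∈ pw (fam.{u} Y q) (n + 1), x = zero ∨ (2 ≤ n + 1 ∧ n + 1 ∈ Y ∧ x = top (n + 1)) ∨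
      (∃ h r I, q ≤ r ∧ x = g h r I ∧ (I = ∅ ∨ (h ∈ Y ∧ I.card = n + 1))) := by
  induction n with
  | zero =>
    intro x hx
    rcases hx with rfl | ⟨r, hr, rfl⟩ | ⟨h, hh, r, hr, i, hi, rfl⟩
    · exact Or.inl rfl
    · exact Or.inr (Or.inr ⟨1, r, ∅, hr, rfl, Or.inl rfl⟩)
    · exact Or.inr (Or.inr ⟨h, r, {i}, hr, rfl, Or.inr ⟨hh, card_singleton i⟩⟩)
  | succ n ih =>
    rintro x ⟨y, hy, a, ha, rfl⟩
    rw [mul_def]
    rcases ih y hy with rfl | ⟨_, _, rfl⟩ | ⟨h, r, I, hr, rfl, hI⟩
    · left; rw [zero_mul']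
    · left; rw [top_mul']
    · rcases ha with rfl | ⟨r', hr', rfl⟩ | ⟨h', hh', r', hr', i, hi, rfl⟩
      · left; rw [mul_zero']
      · left
        rw [g_mul_g, if_neg]
        rintro ⟨_, _, _, h5, _⟩
        exact Finset.not_nonempty_empty h5
      · rw [g_mul_g]
        split_ifs with hc
        · obtain ⟨rfl, rfl, h1, h2, h3⟩ := hc
          have hI' : I.card = n + 1 := by
            rcases hI with rfl | hI
            · exact absurd h1 Finset.not_nonempty_empty
            · exact hI.2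
          have hcard : (I ∪ {i}).card = n + 2 := by
            rw [Finset.card_union_of_disjoint h3, hI', card_singleton]
          unfold mk
          split_ifs with e1 e2
          · have hh : h = n + 2 := by
              rw [e1, card_range] at hcard; exact hcard
            right; left
            rw [hh] at hh' ⊢
            exact ⟨by omega, hh', rfl⟩
          · right; right
            exact ⟨h, r, I ∪ {i}, hr, rfl, Or.inr ⟨hh', hcard⟩⟩
          · left; rfl
        · left; rfl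

theorem g_mem {Y : Set ℕ} {h : ℕ} (hh : h ∈ Y) (q : ℕ) (j : ℕ) (hj : j + 1 < h) :
    (g h q (range (j + 1)) : El.{u}) ∈ pw (fam Y q) (j + 1) := by
  induction j with
  | zero =>
    right; right
    exact ⟨h, hh, q, le_rfl, 0, by omega, by rw [zero_add, range_one]⟩
  | succ j ih =>
    refine ⟨g h q (range (j + 1)), ih (by omega), g h q {j + 1},
      Or.inr (Or.inr ⟨h, hh, q, le_rfl, j + 1, by omega, rfl⟩), ?_⟩
    rw [mul_def, g_mul_g, if_pos]
    · unfold mk
      have e : range (j + 1) ∪ {j + 1} = range (j + 1 + 1) := by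
        rw [range_add_one (n := j + 1)]
        ext t; simp only [mem_union, mem_singleton, mem_insert]; tauto
      rw [e, if_neg, if_pos]
      · exact range_subset_range.mpr (by omega)
      · intro he
        have := congrArg Finset.card he
        rw [card_range, card_range] at this
        omega
    · refine ⟨rfl, rfl, ⟨0, mem_range.mpr (by omega)⟩, singleton_nonempty _, ?_⟩
      rw [Finset.disjoint_singleton_right, mem_range]
      omega

theorem top_mem {Y : Set ℕ} {h : ℕ} (hh : h ∈ Y) (h2 : 2 ≤ h) (q : ℕ) :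
    (top h : El.{u}) ∈ pw (fam Y q) h := by
  obtain ⟨j, rfl⟩ : ∃ j, h = j + 2 := ⟨h - 2, by omega⟩
  refine ⟨g (j + 2) q (range (j + 1)), g_mem hh q j (by omega), g (j + 2) q {j + 1},
      Or.inr (Or.inr ⟨j + 2, hh, q, le_rfl, j + 1, by omega, rfl⟩), ?_⟩
  rw [mul_def, g_mul_g, if_pos]
  · unfold mk
    have e : range (j + 1) ∪ {j + 1} = range (j + 2) := by
      rw [range_add_one (n := j + 1)]
      ext t; simp only [mem_union, mem_singleton, mem_insert]; tauto
    rw [e, if_pos rfl]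
  · refine ⟨rfl, rfl, ⟨0, mem_range.mpr (by omega)⟩, singleton_nonempty _, ?_⟩
    rw [Finset.disjoint_singleton_right, mem_range]
    omega

theorem iInter_pw {Y : Set ℕ} (n : ℕ) :
    (⋂ q, pw (fam.{u} Y q) (n + 1)) = {x | x = zero ∨ (2 ≤ n + 1 ∧ n + 1 ∈ Y ∧ x = top (n + 1))} := by
  ext x
  rw [Set.mem_iInter]
  constructor
  · intro hx
    rcases shape n x (hx 0) with h | h | ⟨h, r, I, hr, rfl, hI⟩
    · exact Or.inl h
    · exact Or.inr h
    · exfalso
      rcases shape n _ (hx (r + 1)) with h1 | ⟨_, _, h1⟩ | ⟨h', r', I', hr', h1, _⟩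
      · cases h1
      · cases h1
      · injection h1 with e1 e2 e3
        omega
  · rintro (rfl | ⟨h2, hY, rfl⟩) q
    · exact zero_mem_pw (Or.inl rfl) n
    · exact top_mem hY h2 q

theorem iInter_fam {Y : Set ℕ} : (⋂ q, fam.{u} Y q) = {zero} := by
  have := iInter_pw.{u} (Y := Y) 0
  simp only [zero_add, pw_one] at this
  rw [this]
  ext x
  rw [Set.mem_singleton_iff]
  constructor
  · rintro (h | ⟨h, _⟩)
    · exact h
    · omega
  · exact fun h => Or.inl h

theorem interSet_fam {Y : Set ℕ} (hY : ∀ h ∈ Y, 2 ≤ h) :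
    interSet (fam.{u} Y) = {h | 1 ≤ h ∧ h ∉ Y} := by
  ext k
  unfold interSet
  rw [Set.mem_ofPred_eq, Set.mem_ofPred_eq, iInter_fam]
  constructor
  · rintro ⟨hk, he⟩
    refine ⟨hk, fun hkY => ?_⟩
    obtain ⟨n, rfl⟩ : ∃ n, k = n + 1 := ⟨k - 1, by omega⟩
    rw [pw_zero, iInter_pw] at he
    have : (top (n + 1) : El.{u}) ∈ ({zero} : Set El.{u}) := by
      rw [he]
      exact Or.inr ⟨hY _ hkY, hkY, rfl⟩
    rw [Set.mem_singleton_iff] at this
    cases this
  · rintro ⟨hk, hkY⟩
    refine ⟨hk, ?_⟩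
    obtain ⟨n, rfl⟩ : ∃ n, k = n + 1 := ⟨k - 1, by omega⟩
    rw [pw_zero, iInter_pw]
    ext x
    rw [Set.mem_singleton_iff]
    constructor
    · exact fun h => Or.inl h
    · rintro (h | ⟨_, h, _⟩)
      · exact h
      · exact absurd h hkY

theorem fam_anti {Y : Set ℕ} (q : ℕ) : fam.{u} Y (q + 1) ⊆ fam Y q := by
  rintro x (h | ⟨r, hr, h⟩ | ⟨h, hh, r, hr, i, hi, hx⟩)
  · exact Or.inl h
  · exact Or.inr (Or.inl ⟨r, by omega, h⟩)
  · exact Or.inr (Or.inr ⟨h, hh, r, by omega, i, hi, hx⟩)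

theorem dummy_mem {Y : Set ℕ} {q r : ℕ} (h : q ≤ r) : (g 1 r ∅ : El.{u}) ∈ fam Y q :=
  Or.inr (Or.inl ⟨r, h, rfl⟩)

theorem dummy_notMem {Y : Set ℕ} {q r : ℕ} (h : r < q) : (g 1 r ∅ : El.{u}) ∉ fam Y q := by
  rintro (h | ⟨r', hr, h⟩ | ⟨h, hh, r', hr, i, hi, hx⟩)
  · cases h
  · injection h with e1 e2 e3; omega
  · injection hx with e1 e2 e3
    exact absurd e3.symm (Finset.singleton_ne_empty i)

theorem fam_injective {Y : Set ℕ} : Function.Injective (fam.{u} Y) := by
  intro q q' h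
  by_contra hne
  rcases Nat.lt_or_gt_of_ne hne with hlt | hlt
  · have := dummy_mem.{u} (Y := Y) (le_refl q)
    rw [h] at this
    exact dummy_notMem hlt this
  · have := dummy_mem.{u} (Y := Y) (le_refl q')
    rw [← h] at this
    exact dummy_notMem hlt this

theorem asd_fam (Y : Set ℕ) : ASD (fam.{u} Y) := by
  refine ⟨fam_anti, fun q₀ => ⟨q₀, le_rfl, fun h => ?_⟩⟩
  have := fam_injective h
  omega

/-- every `X ∋ 1` of positive integers is realised by an asymptotically strictly decreasing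
sequence in `El` -/
theorem hStar_El {X : Set ℕ} (h1 : 1 ∈ X) (hX : ∀ h ∈ X, 1 ≤ h) : X ∈ HStar El.{u} := by
  refine ⟨fam {h | 1 ≤ h ∧ h ∉ X}, asd_fam _, ?_⟩
  rw [interSet_fam]
  · ext h
    rw [Set.mem_ofPred_eq]
    constructor
    · rintro ⟨h2, h3⟩
      by_contra hc
      exact h3 ⟨h2, hc⟩
    · intro hh
      exact ⟨hX h hh, fun hc => hc.2 hh⟩
  · rintro h ⟨h2, h3⟩
    rcases Nat.lt_or_ge h 2 with h4 | h4
    · have : h = 1 := by omega
      rw [this] at h3
      exact absurd h1 h3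
    · exact h4

/-- every `X ∋ 1` of positive integers is realised by a family indexed by any infinite set -/
theorem hQ_El (Q : Type v) [Infinite Q] {X : Set ℕ} (h1 : 1 ∈ X) (hX : ∀ h ∈ X, 1 ≤ h) :
    X ∈ HQ Q El.{u} := by
  obtain ⟨A, hA, hAX⟩ := hStar_El.{u} h1 hX
  obtain ⟨e⟩ : Nonempty (ℕ ↪ Q) := ⟨Infinite.natEmbedding Q⟩
  set f : Q → ℕ := Function.invFun e with hf
  have hsurj : Function.Surjective f := (Function.leftInverse_invFun e.injective).surjective
  refine ⟨fun q => A (f q), ?_, ?_⟩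
  · have hr : Set.range (fun q => A (f q)) = Set.range A := hsurj.range_comp A
    rw [hr]
    intro hfin
    -- an eventually constant decreasing sequence
    have anti : ∀ m n, m ≤ n → A n ⊆ A m := by
      intro m n hmn
      induction n, hmn using Nat.le_induction with
      | base => exact subset_rfl
      | succ n _ ih => exact (hA.1 n).trans ih
    have : ∃ q₀, ∀ q, q₀ ≤ q → A q = A q₀ := by
      -- each value is attained; choose the minimal sets
      by_contra hcon
      push Not at hcon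
      choose φ hφ1 hφ2 using hcon
      have hlt : ∀ m, A (φ m) ⊂ A m := fun m =>
        (anti m (φ m) (hφ1 m)).ssubset_of_ne (hφ2 m)
      set ψ : ℕ → ℕ := fun k => φ^[k] 0 with hψ
      have hanti : StrictAnti (fun k => A (ψ k)) := by
        apply strictAnti_nat_of_succ_lt
        intro k
        have : ψ (k + 1) = φ (ψ k) := Function.iterate_succ_apply' φ k 0
        rw [this]
        exact hlt (ψ k)
      have : (Set.range fun k => A (ψ k)).Infinite := Set.infinite_range_of_injective hanti.injective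
      exact this (hfin.subset (by rintro _ ⟨k, rfl⟩; exact ⟨ψ k, rfl⟩))
    obtain ⟨q₀, hq₀⟩ := this
    obtain ⟨q, hq, hne⟩ := hA.2 q₀
    exact hne ((hq₀ (q + 1) (by omega)).trans (hq₀ q hq).symm)
  · rw [← hAX]
    unfold interSet
    ext h
    rw [Set.mem_ofPred_eq, Set.mem_ofPred_eq]
    have e1 : (⋂ q, A (f q)) = ⋂ n, A n := hsurj.iInf_comp (g := fun n => A n)
    have e2 : (⋂ q, pw (A (f q)) h) = ⋂ n, pw (A n) h := hsurj.iInf_comp (g := fun n => pw (A n) h)
    rw [e1, e2]

end El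

end Pool.Agent.Q248.PI
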